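import Pool.Agent.R770.RP6.Data

set_option autoImplicit false

namespace Pool.Agent.R770.RP6

open Pool.Agent.R770.Chk

theorem ok0011 : T0011.all (chk T C rows) = true := by decide +kernel

end Pool.Agent.R770.RP6
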