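import Pool.Agent.R770.RP6.K0
import Pool.Agent.R770.RP6.K1
import Pool.Agent.R770.RP6.K2
import Pool.Agent.R770.RP6.K3
import Pool.Agent.R770.RP6.K4
import Pool.Agent.R770.RP6.K5
import Pool.Agent.R770.RP6.K6
import Pool.Agent.R770.RP6.K7
import Pool.Agent.R770.RP6.K8
import Pool.Agent.R770.RP6.K9
import Pool.Agent.R770.RP6.K10
import Pool.Agent.R770.RP6.K11
import Pool.Agent.R770.RP6.K12
import Pool.Agent.R770.RP6.K13
import Pool.Agent.R770.RP6.K14
import Pool.Agent.R770.RP6.K15
import Pool.Agent.R770.Sound3

/-!
# Real projective 6-space has a triangulation with 39 vertices
-/

set_option autoImplicit false

namespace Pool.Agent.R770.RP6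

open Pool.Agent.R770.Chk

theorem ok000 : T000.all (chk T C rows) = true :=
  Tr.all_node (k := 58274116797696) (q := 7582909238351245960316910602697159385338133453192010304154620970248) (by decide +kernel) ok0000 ok0001

theorem ok001 : T001.all (chk T C rows) = true :=
  Tr.all_node (k := 40532413897507856) (q := 17692876382488929163362263304523264445764634503494823886836117898500) (by decide +kernel) ok0010 ok0011

theorem ok00 : T00.all (chk T C rows) = true :=
  Tr.all_node (k := 3729543441940500) (q := 7582883526754047556021570422630389538570686685480713663336447001090) (by decide +kernel) ok000 ok001

theorem ok010 : T010.all (chk T C rows) = true :=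
  Tr.all_node (k := 288373450127458304) (q := 17692876383028378069939226330624257349674384877475309474142384163726) (by decide +kernel) ok0100 ok0101

theorem ok011 : T011.all (chk T C rows) = true :=
  Tr.all_node (k := 1301540296638595120) (q := 45495314954549269712624748390859182289872569707998920278139363279492) (by decide +kernel) ok0110 ok0111

theorem ok01 : T01.all (chk T C rows) = true :=
  Tr.all_node (k := 720578148059742208) (q := 12637892810689809396054335296972398597319842013116024508434337925263) (by decide +kernel) ok010 ok011

theorem ok0 : T0.all (chk T C rows) = true :=
  Tr.all_node (k := 99079192876941348) (q := 42967813526555571991198042190730970385013651211395212915183026766466) (by decide +kernel) ok00 ok01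

theorem ok100 : T100.all (chk T C rows) = true :=
  Tr.all_node (k := 7070932890216824896) (q := 25275332457102718329348321213088771936263893970544147945153807257094) (by decide +kernel) ok1000 ok1001

theorem ok101 : T101.all (chk T C rows) = true :=
  Tr.all_node (k := 19311435210754638464) (q := 20220393880598695021416835709524914780195939084668475733893131240583) (by decide +kernel) ok1010 ok1011

theorem ok10 : T10.all (chk T C rows) = true :=
  Tr.all_node (k := 11673330234412761123) (q := 20220348884960313574552891979258448588716145446077362294631769915520) (by decide +kernel) ok100 ok101

theorem ok110 : T110.all (chk T C rows) = true :=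
  Tr.all_node (k := 46188917779386597636) (q := 32857846382466924903993371099073195404007634908073434565929557361666) (by decide +kernel) ok1100 ok1101

theorem ok111 : T111.all (chk T C rows) = true :=
  Tr.all_node (k := 84163269836836733058) (q := 12637886382839551897211814240312532101343117110275656056669422732161) (by decide +kernel) ok1110 ok1111

theorem ok11 : T11.all (chk T C rows) = true :=
  Tr.all_node (k := 73823022701227279872) (q := 17692892452359781550845949325536997016460061929823628874989179340041) (by decide +kernel) ok110 ok111

theorem ok1 : T1.all (chk T C rows) = true :=
  Tr.all_node (k := 36983560141040255237) (q := 5055401382409191569625601221871903851620075078184811601555053740288) (by decide +kernel) ok10 ok11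

theorem ok : T.all (chk T C rows) = true :=
  Tr.all_node (k := 2332864608185878560) (q := 20220371382436219684561853813325012105294157749095034049750957999493) (by decide +kernel) ok0 ok1

theorem valid : Valid T C rows where
  all := ok
  len := rfl
  row := by decide +kernel
  comp1 := by decide +kernel
  comp2 := by decide +kernel
  cov := by decide +kernel

/-- There is a geometric simplicial complex with 39 vertices whose underlying space is homeomorphic
to real projective 6-space. -/
theorem exists_39 :
    ∃ K : Geometry.SimplicialComplex ℝ (EuclideanSpace ℝ (Fin 39)),
      K.vertices.ncard = 39 ∧ Nonempty (K.space ≃ₜ Quot (antipodal 7)) :=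
  exists_triangulation valid

end Pool.Agent.R770.RP6
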